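import Mathlib

namespace Pool.Agent.MP_5c5acc_nt

/-- first kind of window, `x ^ 2 ≥ a * y ^ 2` -/
theorem exists_c_I (a b x y : ℕ) (hy : 0 < y) (h1 : a * y ^ 2 ≤ x ^ 2)
    (h2 : (b ^ 2 + y ^ 2) * x ^ 2 < a * (b + 1) ^ 2 * y ^ 2) :
    ∃ c : ℕ, a * b ^ 2 < c * x ^ 2 ∧ c * x ^ 2 < a * (b + 1) ^ 2 ∧
      b ^ 2 < c * y ^ 2 ∧ c * y ^ 2 < (b + 1) ^ 2 := by
  have hy2 : 0 < y ^ 2 := by positivity
  have ha : 0 < a := by
    rcases Nat.eq_zero_or_pos a with h | h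
    · subst h; simp at h2
    · exact h
  set c := b ^ 2 / y ^ 2 + 1 with hc
  have hdiv := Nat.div_add_mod (b ^ 2) (y ^ 2)
  have hmod := Nat.mod_lt (b ^ 2) hy2
  have e1 : b ^ 2 < c * y ^ 2 := by
    rw [hc]; nlinarith
  have e2 : c * y ^ 2 ≤ b ^ 2 + y ^ 2 := by
    have h3 := Nat.div_mul_le_self (b ^ 2) (y ^ 2)
    rw [hc, add_mul, one_mul]; omega
  have e3 : a * b ^ 2 < c * x ^ 2 := by
    calc a * b ^ 2 < a * (c * y ^ 2) := Nat.mul_lt_mul_of_pos_left e1 ha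
      _ = c * (a * y ^ 2) := by ring
      _ ≤ c * x ^ 2 := Nat.mul_le_mul_left _ h1
  have e4 : c * x ^ 2 < a * (b + 1) ^ 2 := by
    have : (c * x ^ 2) * y ^ 2 < (a * (b + 1) ^ 2) * y ^ 2 := by
      calc (c * x ^ 2) * y ^ 2 = (c * y ^ 2) * x ^ 2 := by ring
        _ ≤ (b ^ 2 + y ^ 2) * x ^ 2 := Nat.mul_le_mul_right _ e2
        _ < _ := h2
    exact lt_of_mul_lt_mul_right this (Nat.zero_le _)
  have e5 : c * y ^ 2 < (b + 1) ^ 2 := by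
    have : a * (c * y ^ 2) < a * (b + 1) ^ 2 := by
      calc a * (c * y ^ 2) = c * (a * y ^ 2) := by ring
        _ ≤ c * x ^ 2 := Nat.mul_le_mul_left _ h1
        _ < _ := e4
    exact lt_of_mul_lt_mul_left this (Nat.zero_le _)
  exact ⟨c, e3, e4, e1, e5⟩

/-- second kind of window, `x ^ 2 ≤ a * y ^ 2` -/
theorem exists_c_II (a b x y : ℕ) (hx : 0 < x) (h1 : x ^ 2 ≤ a * y ^ 2)
    (h2 : (a * b ^ 2 + x ^ 2) * y ^ 2 < (b + 1) ^ 2 * x ^ 2) :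
    ∃ c : ℕ, a * b ^ 2 < c * x ^ 2 ∧ c * x ^ 2 < a * (b + 1) ^ 2 ∧
      b ^ 2 < c * y ^ 2 ∧ c * y ^ 2 < (b + 1) ^ 2 := by
  have hx2 : 0 < x ^ 2 := by positivity
  have ha : 0 < a := by
    rcases Nat.eq_zero_or_pos a with h | h
    · subst h; simp at h1; omega
    · exact h
  set c := a * b ^ 2 / x ^ 2 + 1 with hc
  have hdiv := Nat.div_add_mod (a * b ^ 2) (x ^ 2)
  have hmod := Nat.mod_lt (a * b ^ 2) hx2
  have e1 : a * b ^ 2 < c * x ^ 2 := by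
    rw [hc]; nlinarith
  have e2 : c * x ^ 2 ≤ a * b ^ 2 + x ^ 2 := by
    have h3 := Nat.div_mul_le_self (a * b ^ 2) (x ^ 2)
    rw [hc, add_mul, one_mul]; omega
  have e3 : b ^ 2 < c * y ^ 2 := by
    have : a * b ^ 2 < a * (c * y ^ 2) := by
      calc a * b ^ 2 < c * x ^ 2 := e1
        _ ≤ c * (a * y ^ 2) := Nat.mul_le_mul_left _ h1
        _ = a * (c * y ^ 2) := by ring
    exact lt_of_mul_lt_mul_left this (Nat.zero_le _)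
  have e4 : c * y ^ 2 < (b + 1) ^ 2 := by
    have : (c * y ^ 2) * x ^ 2 < (b + 1) ^ 2 * x ^ 2 := by
      calc (c * y ^ 2) * x ^ 2 = (c * x ^ 2) * y ^ 2 := by ring
        _ ≤ (a * b ^ 2 + x ^ 2) * y ^ 2 := Nat.mul_le_mul_right _ e2
        _ < _ := h2
    exact lt_of_mul_lt_mul_right this (Nat.zero_le _)
  have e5 : c * x ^ 2 < a * (b + 1) ^ 2 := by
    calc c * x ^ 2 ≤ c * (a * y ^ 2) := Nat.mul_le_mul_left _ h1
      _ = a * (c * y ^ 2) := by ring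
      _ < a * (b + 1) ^ 2 := Nat.mul_lt_mul_of_pos_left e4 ha
  exact ⟨c, e1, e5, e3, e4⟩

/-- window with `x ^ 2 = a * y ^ 2 + K` -/
theorem window_I (a b x y K : ℕ) (hy : 0 < y) (hK : 0 < K) (h : x ^ 2 = a * y ^ 2 + K)
    (hc : ((K : ℤ) * b - a * y ^ 2) ^ 2 < ((a : ℤ) - K) * x ^ 2 * y ^ 2) :
    ∃ c : ℕ, a * b ^ 2 < c * x ^ 2 ∧ c * x ^ 2 < a * (b + 1) ^ 2 ∧
      b ^ 2 < c * y ^ 2 ∧ c * y ^ 2 < (b + 1) ^ 2 := by
  apply exists_c_I a b x y hy (by omega)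
  have h' : (x : ℤ) ^ 2 = a * y ^ 2 + K := by exact_mod_cast h
  have hK' : (0 : ℤ) < K := by exact_mod_cast hK
  have key : (K : ℤ) * ((a : ℤ) * (b + 1) ^ 2 * y ^ 2 - (b ^ 2 + y ^ 2) * x ^ 2)
      = ((a : ℤ) - K) * x ^ 2 * y ^ 2 - ((K : ℤ) * b - a * y ^ 2) ^ 2 := by
    rw [h']; ring
  have : (0 : ℤ) < (a : ℤ) * (b + 1) ^ 2 * y ^ 2 - (b ^ 2 + y ^ 2) * x ^ 2 := by
    by_contra hcon
    push Not at hcon
    have := mul_nonpos_of_nonneg_of_nonpos hK'.le hcon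
    linarith
  have h3 : ((b : ℤ) ^ 2 + y ^ 2) * x ^ 2 < (a : ℤ) * (b + 1) ^ 2 * y ^ 2 := by linarith
  exact_mod_cast h3

/-- window with `x ^ 2 + K = a * y ^ 2` -/
theorem window_II (a b x y K : ℕ) (hx : 0 < x) (hK : 0 < K) (h : x ^ 2 + K = a * y ^ 2)
    (hc : ((K : ℤ) * b - x ^ 2) ^ 2 < ((a : ℤ) - K) * x ^ 2 * y ^ 2) :
    ∃ c : ℕ, a * b ^ 2 < c * x ^ 2 ∧ c * x ^ 2 < a * (b + 1) ^ 2 ∧
      b ^ 2 < c * y ^ 2 ∧ c * y ^ 2 < (b + 1) ^ 2 := by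
  apply exists_c_II a b x y hx (by omega)
  have h' : (a : ℤ) * y ^ 2 = x ^ 2 + K := by exact_mod_cast h.symm
  have hK' : (0 : ℤ) < K := by exact_mod_cast hK
  have key : (K : ℤ) * (((b : ℤ) + 1) ^ 2 * x ^ 2 - (a * b ^ 2 + x ^ 2) * y ^ 2)
      = ((a : ℤ) - K) * x ^ 2 * y ^ 2 - ((K : ℤ) * b - x ^ 2) ^ 2 := by
    have e1 : (a : ℤ) * b ^ 2 * y ^ 2 = b ^ 2 * (x ^ 2 + K) := by rw [← h']; ring
    have e2 : (a : ℤ) * x ^ 2 * y ^ 2 = x ^ 2 * (x ^ 2 + K) := by rw [← h']; ring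
    linear_combination (-(K : ℤ)) * e1 - e2
  have : (0 : ℤ) < ((b : ℤ) + 1) ^ 2 * x ^ 2 - (a * b ^ 2 + x ^ 2) * y ^ 2 := by
    by_contra hcon
    push Not at hcon
    have := mul_nonpos_of_nonneg_of_nonpos hK'.le hcon
    linarith
  have h3 : ((a : ℤ) * b ^ 2 + x ^ 2) * y ^ 2 < ((b : ℤ) + 1) ^ 2 * x ^ 2 := by linarith
  exact_mod_cast h3

/-- Dirichlet approximation of `√a`, in integers -/
theorem dirichlet (a Q : ℕ) (ha : 2 ≤ a) (hQ : 1 ≤ Q) :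
    ∃ x y : ℕ, 1 ≤ x ∧ 1 ≤ y ∧ y ≤ Q ∧
      (((x : ℤ) ^ 2 - a * y ^ 2) ^ 2) * ((Q : ℤ) + 1) ^ 2 ≤ 2 * (x ^ 2 + a * y ^ 2) := by
  obtain ⟨j, k, hk, hkQ, hjk⟩ := Real.exists_int_int_abs_mul_sub_le (Real.sqrt a) (n := Q) (by omega)
  have hQpos : (0 : ℝ) < (Q : ℝ) + 1 := by positivity
  have hsa : (1 : ℝ) < Real.sqrt a := by
    rw [show (1 : ℝ) = Real.sqrt 1 by simp]
    apply Real.sqrt_lt_sqrt (by norm_num)
    exact_mod_cast (by omega : 1 < a)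
  have hk1 : (1 : ℝ) ≤ k := by exact_mod_cast hk
  have hks : (1 : ℝ) < k * Real.sqrt a := by nlinarith
  have hQ1 : (1 : ℝ) ≤ Q := by exact_mod_cast hQ
  have hfrac : 1 / ((Q : ℝ) + 1) ≤ 1 / 2 := by
    apply one_div_le_one_div_of_le (by norm_num); linarith
  have hj : (0 : ℝ) < j := by
    have := (abs_le.mp hjk).2
    linarith
  have hj' : 0 < j := by exact_mod_cast hj
  obtain ⟨x, rfl⟩ := Int.eq_ofNat_of_zero_le hj'.le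
  obtain ⟨y, rfl⟩ := Int.eq_ofNat_of_zero_le hk.le
  refine ⟨x, y, by exact_mod_cast hj', by exact_mod_cast hk, by exact_mod_cast hkQ, ?_⟩
  have hs2 : Real.sqrt a ^ 2 = a := Real.sq_sqrt (by positivity)
  have hs0 : 0 ≤ Real.sqrt a := Real.sqrt_nonneg _
  set s := Real.sqrt a with hs
  simp only [Int.cast_natCast] at *
  -- real version
  have hmain : (((x : ℝ) ^ 2 - a * y ^ 2) ^ 2) * ((Q : ℝ) + 1) ^ 2 ≤ 2 * (x ^ 2 + a * y ^ 2) := by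
    have hd : |(y : ℝ) * s - x| * ((Q : ℝ) + 1) ≤ 1 := by
      have := mul_le_mul_of_nonneg_right hjk hQpos.le
      rwa [one_div, inv_mul_cancel₀ hQpos.ne'] at this
    have hd2 : ((y : ℝ) * s - x) ^ 2 * ((Q : ℝ) + 1) ^ 2 ≤ 1 := by
      have h0 : 0 ≤ |(y : ℝ) * s - x| * ((Q : ℝ) + 1) := by positivity
      have := mul_le_mul hd hd h0 (by norm_num)
      calc ((y : ℝ) * s - x) ^ 2 * ((Q : ℝ) + 1) ^ 2
          = (|(y : ℝ) * s - x| * ((Q : ℝ) + 1)) * (|(y : ℝ) * s - x| * ((Q : ℝ) + 1)) := by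
            rw [← sq_abs ((y : ℝ) * s - x)]; ring
        _ ≤ 1 * 1 := this
        _ = 1 := by norm_num
    have hexp : ((x : ℝ) ^ 2 - a * y ^ 2) ^ 2 = ((y : ℝ) * s - x) ^ 2 * ((y : ℝ) * s + x) ^ 2 := by
      rw [← hs2]; ring
    have hsum : ((y : ℝ) * s + x) ^ 2 ≤ 2 * (x ^ 2 + a * y ^ 2) := by
      rw [← hs2]; nlinarith [sq_nonneg ((y : ℝ) * s - x)]
    calc (((x : ℝ) ^ 2 - a * y ^ 2) ^ 2) * ((Q : ℝ) + 1) ^ 2
        = (((y : ℝ) * s - x) ^ 2 * ((Q : ℝ) + 1) ^ 2) * ((y : ℝ) * s + x) ^ 2 := by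
          rw [hexp]; ring
      _ ≤ 1 * ((y : ℝ) * s + x) ^ 2 := by
          apply mul_le_mul_of_nonneg_right hd2 (by positivity)
      _ ≤ 2 * (x ^ 2 + a * y ^ 2) := by linarith
  exact_mod_cast hmain

end Pool.Agent.MP_5c5acc_nt
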