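import Mathlib

namespace Pool.Agent.MP_5c5acc_nt

theorem K_sq_lt (a y q K : ℤ) (hy : 1 ≤ y) (hyq : y ≤ q - 1) (hK : 1 ≤ K)
    (hD : K ^ 2 * q ^ 2 ≤ 4 * a * y ^ 2 + 2 * K) : K ^ 2 < 4 * a := by
  by_contra hcon
  push Not at hcon
  have h1 : y ^ 2 ≤ (q - 1) ^ 2 := by nlinarith
  have h2 : 4 * a * y ^ 2 ≤ K ^ 2 * (q - 1) ^ 2 := by
    calc 4 * a * y ^ 2 ≤ K ^ 2 * y ^ 2 := by nlinarith [sq_nonneg y]
      _ ≤ K ^ 2 * (q - 1) ^ 2 := by nlinarith [sq_nonneg K]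
  have h3 : K ^ 2 * (2 * q - 1) ≤ 2 * K := by nlinarith
  have h4 : K * (K * (2 * q - 1)) ≤ K * 2 := by nlinarith
  have h5 : K * (2 * q - 1) ≤ 2 := le_of_mul_le_mul_left h4 (by omega)
  nlinarith

theorem four_K_lt (a K : ℤ) (ha : 6 ≤ a) (hK : 1 ≤ K) (h : K ^ 2 < 4 * a) : 4 * K < 3 * a := by
  by_contra hcon
  push Not at hcon
  have h2 : a < 8 := by nlinarith
  have h3 : K < 6 := by nlinarith
  interval_cases a <;> interval_cases K <;> omega

theorem M_I (a K : ℤ) (ha : 6 ≤ a) (hK : 2 ≤ K) (h : K ^ 2 < 4 * a) :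
    4 * K ≤ (6 * K - 8) * a - 3 * K ^ 2 := by
  rcases (by omega : K = 2 ∨ K = 3 ∨ 4 ≤ K) with h1 | h1 | h1
  · subst h1; omega
  · subst h1; omega
  · nlinarith

theorem M_II (a K : ℤ) (ha : 6 ≤ a) (hK : 2 ≤ K) (h : K ^ 2 < 4 * a) :
    0 ≤ (6 * K - 8) * a - 6 * K ^ 2 + 4 * K := by
  rcases (by omega : K = 2 ∨ K = 3 ∨ K = 4 ∨ K = 5 ∨ 6 ≤ K) with h1 | h1 | h1 | h1 | h1
  · subst h1; omega
  · subst h1; omega
  · subst h1; omega
  · subst h1; omega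
  · nlinarith

theorem ineq_I (a b x y q K : ℤ) (ha : 6 ≤ a) (hb : 1 ≤ b) (hx : 1 ≤ x) (hy : 1 ≤ y)
    (hyq : y ≤ q - 1) (hQ : 2 * (q - 1) ^ 2 ≤ 3 * b) (hQ' : 3 * b < 2 * q ^ 2) (hK : 2 ≤ K)
    (h : x ^ 2 = a * y ^ 2 + K) (hD : K ^ 2 * q ^ 2 ≤ 2 * (x ^ 2 + a * y ^ 2)) :
    (K * b - a * y ^ 2) ^ 2 < (a - K) * x ^ 2 * y ^ 2 := by
  have hY : 1 ≤ y ^ 2 := by nlinarith
  rw [h] at hD ⊢
  have hK2 : K ^ 2 < 4 * a := by
    apply K_sq_lt a y q K hy hyq (by omega) _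
    linarith
  have h34 := four_K_lt a K ha (by omega) hK2
  have hM := M_I a K ha hK hK2
  have hYb : 2 * y ^ 2 ≤ 3 * b := by nlinarith
  generalize y ^ 2 = Y at *
  rcases le_or_gt (a * Y) (K * b) with h1 | h1
  · -- upper
    have h2 : 3 * K * (K * b) < 3 * K * ((2 * a - K) * Y) := by
      have e1 : 3 * K * (K * b) < 2 * (K ^ 2 * q ^ 2) := by nlinarith
      have e2 : 2 * (K ^ 2 * q ^ 2) ≤ 8 * (a * Y) + 4 * K := by linarith
      have e3 : 4 * K ≤ ((6 * K - 8) * a - 3 * K ^ 2) * Y := by nlinarith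
      nlinarith
    have h3 : K * b < (2 * a - K) * Y := lt_of_mul_lt_mul_left h2 (by omega)
    have h4 : K * b - a * Y < (a - K) * Y := by linarith
    have h5 : (K * b - a * Y) ^ 2 ≤ ((a - K) * Y) ^ 2 := by
      apply pow_le_pow_left₀ (by linarith) h4.le
    have h6 : ((a - K) * Y) ^ 2 < (a - K) * (a * Y + K) * Y := by
      have e1 : (a - K) * (a * Y + K) * Y - ((a - K) * Y) ^ 2 = (a - K) * Y * (K * Y + K) := by ring
      have e2 : 0 < (a - K) * Y * (K * Y + K) := by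
        apply mul_pos (mul_pos (by omega) (by omega))
        nlinarith
      linarith
    linarith
  · have h2 : 3 * (a * Y - K * b) ≤ (3 * a - 2 * K) * Y := by nlinarith
    have h3 : (3 * (a * Y - K * b)) ^ 2 ≤ ((3 * a - 2 * K) * Y) ^ 2 := by
      apply pow_le_pow_left₀ (by linarith) h2
    have h4 : ((3 * a - 2 * K) * Y) ^ 2 < 9 * ((a - K) * (a * Y + K) * Y) := by
      have e1 : 9 * ((a - K) * (a * Y + K) * Y) - ((3 * a - 2 * K) * Y) ^ 2
          = K * (Y ^ 2 * (3 * a - 4 * K) + 9 * ((a - K) * Y)) := by ring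
      have e2 : 0 < K * (Y ^ 2 * (3 * a - 4 * K) + 9 * ((a - K) * Y)) := by
        apply mul_pos (by omega)
        have : 0 < Y ^ 2 * (3 * a - 4 * K) := mul_pos (by positivity) (by omega)
        have : 0 < (a - K) * Y := mul_pos (by omega) (by omega)
        linarith
      linarith
    nlinarith

theorem ineq_II (a b x y q K : ℤ) (ha : 6 ≤ a) (hb : 1 ≤ b) (hx : 1 ≤ x) (hy : 1 ≤ y)
    (hyq : y ≤ q - 1) (hQ : 2 * (q - 1) ^ 2 ≤ 3 * b) (hQ' : 3 * b < 2 * q ^ 2) (hK : 2 ≤ K)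
    (h : x ^ 2 = a * y ^ 2 - K) (hD : K ^ 2 * q ^ 2 ≤ 2 * (x ^ 2 + a * y ^ 2)) :
    (K * b - x ^ 2) ^ 2 < (a - K) * x ^ 2 * y ^ 2 := by
  have hY : 1 ≤ y ^ 2 := by nlinarith
  have hX : 1 ≤ x ^ 2 := by nlinarith
  rw [h] at hD ⊢
  have hK2 : K ^ 2 < 4 * a := by
    apply K_sq_lt a y q K hy hyq (by omega) _
    linarith
  have h34 := four_K_lt a K ha (by omega) hK2
  have hM := M_II a K ha hK hK2
  have hYb : 2 * y ^ 2 ≤ 3 * b := by nlinarith
  rw [h] at hX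
  clear h
  generalize y ^ 2 = Y at *
  rcases le_or_gt (a * Y - K) (K * b) with h1 | h1
  · -- upper
    have h2 : 3 * K * (K * (b + 1)) < 3 * K * ((2 * a - K) * Y) := by
      have e1 : 3 * K * (K * b) < 2 * (K ^ 2 * q ^ 2) := by nlinarith
      have e2 : 2 * (K ^ 2 * q ^ 2) ≤ 8 * (a * Y) - 4 * K := by linarith
      have e3 : 0 ≤ ((6 * K - 8) * a - 6 * K ^ 2 + 4 * K) * Y := by nlinarith
      have e5 : 0 ≤ 3 * K ^ 2 - 4 * K := by nlinarith
      have e4 : (3 * K ^ 2 - 4 * K) ≤ (3 * K ^ 2 - 4 * K) * Y := by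
        nlinarith [mul_nonneg e5 (by omega : (0 : ℤ) ≤ Y - 1)]
      nlinarith
    have h3 : K * (b + 1) < (2 * a - K) * Y := lt_of_mul_lt_mul_left h2 (by omega)
    have h4 : K * b - (a * Y - K) < (a - K) * Y := by linarith
    have h5 : (K * b - (a * Y - K)) ^ 2 < ((a - K) * Y) ^ 2 := by
      apply pow_lt_pow_left₀ h4 (by linarith) (by norm_num)
    have h6 : ((a - K) * Y) ^ 2 ≤ (a - K) * (a * Y - K) * Y := by
      have e1 : (a - K) * (a * Y - K) * Y - ((a - K) * Y) ^ 2 = (a - K) * Y * (K * (Y - 1)) := by ring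
      have e2 : 0 ≤ (a - K) * Y * (K * (Y - 1)) := by
        apply mul_nonneg (mul_nonneg (by omega) (by omega))
        apply mul_nonneg (by omega) (by omega)
      linarith
    linarith
  · have h2 : 3 * (a * Y - K - K * b) ≤ (3 * a - 2 * K) * Y - 3 * K := by nlinarith
    have h3 : (3 * (a * Y - K - K * b)) ^ 2 ≤ ((3 * a - 2 * K) * Y - 3 * K) ^ 2 := by
      apply pow_le_pow_left₀ (by linarith) h2
    have h4 : ((3 * a - 2 * K) * Y - 3 * K) ^ 2 < 9 * ((a - K) * (a * Y - K) * Y) := by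
      have e1 : 9 * ((a - K) * (a * Y - K) * Y) - ((3 * a - 2 * K) * Y - 3 * K) ^ 2
          = K * (Y ^ 2 * (3 * a - 4 * K) + Y * (9 * a - 3 * K) - 9 * K) := by ring
      have e2 : 0 < K * (Y ^ 2 * (3 * a - 4 * K) + Y * (9 * a - 3 * K) - 9 * K) := by
        apply mul_pos (by omega)
        have : 0 < Y ^ 2 * (3 * a - 4 * K) := mul_pos (by positivity) (by omega)
        have : (9 * a - 3 * K) ≤ Y * (9 * a - 3 * K) := by nlinarith
        linarith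
      linarith
    nlinarith

end Pool.Agent.MP_5c5acc_nt
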