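import Mathlib

namespace Pool.Agent.MP_5c5acc_nt

/-- lower end of the window for `K = 1`, first kind -/
theorem K1_lower_I (a b x y : ℤ) (ha : 6 ≤ a) (hy : 1 ≤ y)
    (hYb : 2 * y ^ 2 ≤ 3 * b) (h : x ^ 2 = a * y ^ 2 + 1) (h1 : b ≤ a * y ^ 2) :
    (b - a * y ^ 2) ^ 2 < (a - 1) * x ^ 2 * y ^ 2 := by
  have hY : 1 ≤ y ^ 2 := by nlinarith
  rw [h]
  generalize y ^ 2 = Y at *
  have h2 : 3 * (a * Y - b) ≤ (3 * a - 2) * Y := by nlinarith
  have h3 : (3 * (a * Y - b)) ^ 2 ≤ ((3 * a - 2) * Y) ^ 2 := by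
    apply pow_le_pow_left₀ (by linarith) h2
  have h4 : ((3 * a - 2) * Y) ^ 2 < 9 * ((a - 1) * (a * Y + 1) * Y) := by
    have e1 : 9 * ((a - 1) * (a * Y + 1) * Y) - ((3 * a - 2) * Y) ^ 2
        = Y ^ 2 * (3 * a - 4) + 9 * ((a - 1) * Y) := by ring
    have : 0 < Y ^ 2 * (3 * a - 4) := mul_pos (by positivity) (by omega)
    have : 0 < (a - 1) * Y := mul_pos (by omega) (by omega)
    linarith
  nlinarith

/-- lower end of the window for `K = 1`, second kind -/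
theorem K1_lower_II (a b x y : ℤ) (ha : 6 ≤ a) (hy : 1 ≤ y)
    (hYb : 2 * y ^ 2 ≤ 3 * b) (h : x ^ 2 = a * y ^ 2 - 1) (h1 : b ≤ x ^ 2) :
    (b - x ^ 2) ^ 2 < (a - 1) * x ^ 2 * y ^ 2 := by
  have hY : 1 ≤ y ^ 2 := by nlinarith
  rw [h] at h1 ⊢
  clear h hy
  generalize y ^ 2 = Y at *
  have h2 : 3 * (a * Y - 1 - b) ≤ (3 * a - 2) * Y - 3 := by nlinarith
  have h3 : (3 * (a * Y - 1 - b)) ^ 2 ≤ ((3 * a - 2) * Y - 3) ^ 2 := by
    apply pow_le_pow_left₀ (by linarith) h2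
  have h4 : ((3 * a - 2) * Y - 3) ^ 2 < 9 * ((a - 1) * (a * Y - 1) * Y) := by
    have e1 : 9 * ((a - 1) * (a * Y - 1) * Y) - ((3 * a - 2) * Y - 3) ^ 2
        = Y ^ 2 * (3 * a - 4) + Y * (9 * a - 3) - 9 := by ring
    have : 0 < Y ^ 2 * (3 * a - 4) := mul_pos (by positivity) (by omega)
    have : (9 * a - 3) ≤ Y * (9 * a - 3) := by nlinarith
    linarith
  nlinarith

theorem sq_lt_of_bounds (u v w : ℤ) (h1 : v * (v - w) < u) (h2 : u < v * (v + w)) :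
    (u - v ^ 2) ^ 2 < (v * w) ^ 2 := by
  apply sq_lt_sq'
  · nlinarith
  · nlinarith

/-- the second solution beyond the window of a solution with `K = 1`, first kind -/
theorem K1_next_I (a b x y i : ℤ) (ha : 6 ≤ a) (hx : 1 ≤ x) (hy : 1 ≤ y) (hi : 1 ≤ i)
    (hia : a ≤ 4 * i ^ 2) (hia' : i ^ 2 + 2 ≤ a)
    (hb : 3 * b < 8 * (a * y ^ 2) + 4) (h : x ^ 2 = a * y ^ 2 + 1) (h1 : a * y ^ 2 < b)
    (h2 : (a - 1) * x ^ 2 * y ^ 2 ≤ (b - a * y ^ 2) ^ 2) :
    ((a - i ^ 2) * b - (i * x + a * y) ^ 2) ^ 2 <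
      (a - (a - i ^ 2)) * (i * x + a * y) ^ 2 * (x + i * y) ^ 2 := by
  have hY : 1 ≤ y ^ 2 := by nlinarith
  have hixy : 0 < i * x * y := by positivity
  -- lower
  have l1 : i * x * y < b - a * y ^ 2 := by
    by_contra hcon
    push Not at hcon
    have e1 : (b - a * y ^ 2) ^ 2 ≤ (i * x * y) ^ 2 := pow_le_pow_left₀ (by linarith) hcon 2
    have e2 : (i * x * y) ^ 2 < (a - 1) * x ^ 2 * y ^ 2 := by
      have : 0 < (a - 1 - i ^ 2) * (x ^ 2 * y ^ 2) := mul_pos (by linarith) (by positivity)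
      nlinarith
    linarith
  have l2 : (i * x + a * y) * ((i * x + a * y) - i * (x + i * y)) < (a - i ^ 2) * b := by
    have e1 : (i * x + a * y) * ((i * x + a * y) - i * (x + i * y))
        = (a - i ^ 2) * (i * x * y + a * y ^ 2) := by ring
    rw [e1]
    apply mul_lt_mul_of_pos_left _ (by linarith)
    linarith
  -- upper
  have hixy2 : a * y ^ 2 ≤ 2 * (i * x * y) := by
    have e1 : (a * y) ^ 2 ≤ (2 * (i * x)) ^ 2 := by
      have : (a * y) ^ 2 = a * (x ^ 2 - 1) := by rw [h]; ring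
      have e2 : (2 * (i * x)) ^ 2 = 4 * i ^ 2 * x ^ 2 := by ring
      rw [this, e2]
      nlinarith [sq_nonneg x]
    have e2 : a * y ≤ 2 * (i * x) := le_of_sq_le_sq e1 (by positivity)
    nlinarith
  have u1 : 3 * ((a - i ^ 2) * b) < 3 * ((i * x + a * y) * ((i * x + a * y) + i * (x + i * y))) := by
    have e1 : (i * x + a * y) * ((i * x + a * y) + i * (x + i * y))
        = 2 * i ^ 2 * x ^ 2 + (3 * a + i ^ 2) * (i * x * y) + (a + i ^ 2) * (a * y ^ 2) := by ring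
    rw [e1, h]
    have e2 : 3 * ((a - i ^ 2) * b) < (a - i ^ 2) * (8 * (a * y ^ 2) + 4) := by
      have : (a - i ^ 2) * (3 * b) < (a - i ^ 2) * (8 * (a * y ^ 2) + 4) :=
        mul_lt_mul_of_pos_left hb (by linarith)
      linarith
    have e3 : (3 * a + i ^ 2) * (a * y ^ 2) ≤ (3 * a + i ^ 2) * (2 * (i * x * y)) :=
      mul_le_mul_of_nonneg_left hixy2 (by positivity)
    generalize i * x * y = T at *
    have hA : 6 ≤ a * y ^ 2 := by nlinarith
    generalize a * y ^ 2 = A at *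
    generalize i ^ 2 = I at *
    have e4 : 0 ≤ A * (37 * I - a) := mul_nonneg (by omega) (by omega)
    have e5 : 2 * ((a - I) * (8 * A + 4)) ≤
        2 * (3 * (2 * I * (A + 1) + (a + I) * A)) + 3 * ((3 * a + I) * A) := by
      nlinarith
    nlinarith
  have u2 : (a - i ^ 2) * b < (i * x + a * y) * ((i * x + a * y) + i * (x + i * y)) := by linarith
  have := sq_lt_of_bounds ((a - i ^ 2) * b) (i * x + a * y) (i * (x + i * y)) l2 u2
  calc ((a - i ^ 2) * b - (i * x + a * y) ^ 2) ^ 2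
      < ((i * x + a * y) * (i * (x + i * y))) ^ 2 := this
    _ = _ := by ring

/-- the second solution beyond the window of a solution with `K = 1`, second kind -/
theorem K1_next_II (a b x y i : ℤ) (ha : 6 ≤ a) (hx : 1 ≤ x) (hy : 1 ≤ y) (hi : 1 ≤ i)
    (hia : a ≤ 4 * i ^ 2) (hia' : i ^ 2 + 2 ≤ a)
    (hb : 3 * b < 8 * (a * y ^ 2) - 4) (h : x ^ 2 = a * y ^ 2 - 1) (h1 : x ^ 2 < b)
    (h2 : (a - 1) * x ^ 2 * y ^ 2 ≤ (b - x ^ 2) ^ 2) :
    ((a - i ^ 2) * b - a * (x + i * y) ^ 2) ^ 2 <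
      (a - (a - i ^ 2)) * (i * x + a * y) ^ 2 * (x + i * y) ^ 2 := by
  have hY : 1 ≤ y ^ 2 := by nlinarith
  have hixy : 0 < i * x * y := by positivity
  -- lower
  have l1 : i * x * y < b - x ^ 2 := by
    by_contra hcon
    push Not at hcon
    have e1 : (b - x ^ 2) ^ 2 ≤ (i * x * y) ^ 2 := pow_le_pow_left₀ (by linarith) hcon 2
    have e2 : (i * x * y) ^ 2 < (a - 1) * x ^ 2 * y ^ 2 := by
      have : 0 < (a - 1 - i ^ 2) * (x ^ 2 * y ^ 2) := mul_pos (by linarith) (by positivity)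
      nlinarith
    linarith
  have l2 : a * (x + i * y) ^ 2 - i * (i * x + a * y) * (x + i * y) < (a - i ^ 2) * b := by
    have e1 : a * (x + i * y) ^ 2 - i * (i * x + a * y) * (x + i * y)
        = (a - i ^ 2) * (i * x * y + x ^ 2) := by ring
    rw [e1]
    apply mul_lt_mul_of_pos_left _ (by linarith)
    linarith
  -- upper
  have hixy2 : 2 * (a * y ^ 2) ≤ 5 * (i * x * y) := by
    have e1 : (2 * (a * y)) ^ 2 ≤ (5 * (i * x)) ^ 2 := by
      have : (2 * (a * y)) ^ 2 = 4 * a * (x ^ 2 + 1) := by rw [h]; ring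
      have e2 : (5 * (i * x)) ^ 2 = 25 * i ^ 2 * x ^ 2 := by ring
      have e3 : 5 ≤ x ^ 2 := by rw [h]; nlinarith
      rw [this, e2]
      nlinarith [sq_nonneg x]
    have e2 : 2 * (a * y) ≤ 5 * (i * x) := le_of_sq_le_sq e1 (by positivity)
    nlinarith
  have u1 : 3 * ((a - i ^ 2) * b) < 3 * (a * (x + i * y) ^ 2 + i * (i * x + a * y) * (x + i * y)) := by
    have e1 : a * (x + i * y) ^ 2 + i * (i * x + a * y) * (x + i * y)
        = (a + i ^ 2) * x ^ 2 + (3 * a + i ^ 2) * (i * x * y) + 2 * i ^ 2 * (a * y ^ 2) := by ring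
    rw [e1, h]
    have e2 : 3 * ((a - i ^ 2) * b) < (a - i ^ 2) * (8 * (a * y ^ 2) - 4) := by
      have : (a - i ^ 2) * (3 * b) < (a - i ^ 2) * (8 * (a * y ^ 2) - 4) :=
        mul_lt_mul_of_pos_left hb (by linarith)
      linarith
    have e3 : (3 * a + i ^ 2) * (2 * (a * y ^ 2)) ≤ (3 * a + i ^ 2) * (5 * (i * x * y)) :=
      mul_le_mul_of_nonneg_left hixy2 (by positivity)
    generalize i * x * y = T at *
    have hA : 6 ≤ a * y ^ 2 := by nlinarith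
    have hi2 : 1 ≤ i ^ 2 := by nlinarith
    generalize a * y ^ 2 = A at *
    generalize i ^ 2 = I at *
    have e4 : 0 ≤ A * (4 * I - a) := mul_nonneg (by omega) (by omega)
    have e6 : 6 * I ≤ A * I := mul_le_mul_of_nonneg_right hA (by omega)
    have e5 : 5 * ((a - I) * (8 * A - 4)) ≤
        5 * (3 * ((a + I) * (A - 1) + 2 * I * A)) + 3 * ((3 * a + I) * (2 * A)) := by
      nlinarith
    nlinarith
  have u2 : (a - i ^ 2) * b < a * (x + i * y) ^ 2 + i * (i * x + a * y) * (x + i * y) := by linarith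
  have : ((a - i ^ 2) * b - a * (x + i * y) ^ 2) ^ 2 < (i * (i * x + a * y) * (x + i * y)) ^ 2 := by
    apply sq_lt_sq'
    · linarith
    · linarith
  calc ((a - i ^ 2) * b - a * (x + i * y) ^ 2) ^ 2
      < (i * (i * x + a * y) * (x + i * y)) ^ 2 := this
    _ = _ := by ring

theorem exists_i (a : ℕ) (ha : 6 ≤ a) : ∃ i : ℕ, 1 ≤ i ∧ a ≤ 4 * i ^ 2 ∧ i ^ 2 + 2 ≤ a := by
  have h1 := Nat.sqrt_le' a
  have h2 := Nat.lt_succ_sqrt' a
  set s := Nat.sqrt a with hs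
  refine ⟨s / 2 + 1, by omega, ?_, ?_⟩
  · have h3 : s + 1 ≤ 2 * (s / 2 + 1) := by omega
    have h4 : (s + 1) ^ 2 ≤ (2 * (s / 2 + 1)) ^ 2 := Nat.pow_le_pow_left h3 2
    have h5 : (s + 1) ^ 2 = s.succ ^ 2 := rfl
    nlinarith
  · rcases Nat.lt_or_ge s 3 with h3 | h3
    · have h4 : s / 2 + 1 ≤ 2 := by omega
      have h5 : (s / 2 + 1) ^ 2 ≤ 2 ^ 2 := Nat.pow_le_pow_left h4 2
      omega
    · have h3' : 2 * (s / 2 + 1) ≤ s + 2 := by omega
      have h4 : (2 * (s / 2 + 1)) ^ 2 ≤ (s + 2) ^ 2 := Nat.pow_le_pow_left h3' 2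
      nlinarith

end Pool.Agent.MP_5c5acc_nt
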