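import Mathlib
import Pool.Agent.MP_5c5acc_nt.Core
import Pool.Agent.MP_5c5acc_nt.Ineq
import Pool.Agent.MP_5c5acc_nt.KOne

namespace Pool.Agent.MP_5c5acc_nt

theorem isSquare_of_mul_sq (a x y : ℕ) (hy : 0 < y) (h : x ^ 2 = a * y ^ 2) : IsSquare a := by
  have h1 : y ^ 2 ∣ x ^ 2 := ⟨a, by rw [h]; ring⟩
  have h2 : y ∣ x := (Nat.pow_dvd_pow_iff (by norm_num)).mp h1
  obtain ⟨z, rfl⟩ := h2
  refine ⟨z, ?_⟩
  have h3 : y ^ 2 * (z * z) = y ^ 2 * a := by nlinarith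
  exact (Nat.eq_of_mul_eq_mul_left (by positivity) h3).symm

theorem main_ge_six (a b : ℕ) (ha : 6 ≤ a) (hns : ¬ IsSquare a) (hb : 1 ≤ b) :
    ∃ c x y : ℕ, a * b ^ 2 < c * x ^ 2 ∧ c * x ^ 2 < a * (b + 1) ^ 2 ∧
      b ^ 2 < c * y ^ 2 ∧ c * y ^ 2 < (b + 1) ^ 2 := by
  -- the parameter Q
  obtain ⟨Q, hQ1, hQ2, hQ3⟩ : ∃ Q : ℕ, 1 ≤ Q ∧ 2 * Q ^ 2 ≤ 3 * b ∧ 3 * b < 2 * (Q + 1) ^ 2 := by
    have h1 := Nat.sqrt_le' (3 * b / 2)
    have h2 := Nat.lt_succ_sqrt' (3 * b / 2)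
    refine ⟨Nat.sqrt (3 * b / 2), ?_, by omega, ?_⟩
    · rw [Nat.le_sqrt']; omega
    · have h3 : (Nat.sqrt (3 * b / 2) + 1) ^ 2 = (Nat.sqrt (3 * b / 2)).succ ^ 2 := rfl
      omega
  obtain ⟨x, y, hx, hy, hyQ, hD⟩ := dirichlet a Q (by omega) hQ1
  have ha' : (6 : ℤ) ≤ a := by exact_mod_cast ha
  have hb' : (1 : ℤ) ≤ b := by exact_mod_cast hb
  have hx' : (1 : ℤ) ≤ x := by exact_mod_cast hx
  have hy' : (1 : ℤ) ≤ y := by exact_mod_cast hy
  have hyQ' : (y : ℤ) ≤ (Q + 1) - 1 := by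
    have : (y : ℤ) ≤ Q := by exact_mod_cast hyQ
    linarith
  have hQ2' : 2 * (((Q : ℤ) + 1) - 1) ^ 2 ≤ 3 * b := by
    have : 2 * (Q : ℤ) ^ 2 ≤ 3 * b := by exact_mod_cast hQ2
    simpa using this
  have hQ3' : 3 * (b : ℤ) < 2 * ((Q : ℤ) + 1) ^ 2 := by exact_mod_cast hQ3
  have hYb : 2 * (y : ℤ) ^ 2 ≤ 3 * b := by
    have : (y : ℤ) ^ 2 ≤ (((Q : ℤ) + 1) - 1) ^ 2 := pow_le_pow_left₀ (by linarith) hyQ' 2
    linarith
  obtain ⟨i, hi, hia, hia'⟩ := exists_i a ha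
  have hi' : (1 : ℤ) ≤ i := by exact_mod_cast hi
  have hia1 : (a : ℤ) ≤ 4 * i ^ 2 := by exact_mod_cast hia
  have hia2 : (i : ℤ) ^ 2 + 2 ≤ a := by exact_mod_cast hia'
  rcases lt_trichotomy (x ^ 2) (a * y ^ 2) with hlt | heq | hgt
  · -- second kind
    obtain ⟨K, hK⟩ := Nat.exists_eq_add_of_lt hlt
    -- a * y ^ 2 = x ^ 2 + K + 1
    have hKeq : x ^ 2 + (K + 1) = a * y ^ 2 := by omega
    have hKZ : (x : ℤ) ^ 2 = a * y ^ 2 - ((K + 1 : ℕ) : ℤ) := by
      have : ((x ^ 2 + (K + 1) : ℕ) : ℤ) = ((a * y ^ 2 : ℕ) : ℤ) := by rw [hKeq]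
      push_cast at this ⊢
      linarith
    have hD' : (((K + 1 : ℕ) : ℤ)) ^ 2 * ((Q : ℤ) + 1) ^ 2 ≤ 2 * (x ^ 2 + a * y ^ 2) := by
      have e : (((K + 1 : ℕ) : ℤ)) = a * y ^ 2 - x ^ 2 := by linarith
      rw [e]
      calc ((a : ℤ) * y ^ 2 - x ^ 2) ^ 2 * ((Q : ℤ) + 1) ^ 2
          = ((x : ℤ) ^ 2 - a * y ^ 2) ^ 2 * ((Q : ℤ) + 1) ^ 2 := by ring
        _ ≤ _ := hD
    rcases Nat.lt_or_ge K 1 with hK0 | hK1
    · -- K + 1 = 1
      have hK0' : K = 0 := by omega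
      subst hK0'
      have hone : (x : ℤ) ^ 2 = a * y ^ 2 - 1 := by simpa using hKZ
      have hbd : 3 * (b : ℤ) < 8 * (a * y ^ 2) - 4 := by
        simp only [zero_add, Nat.cast_one, one_pow, one_mul] at hD'
        rw [hone] at hD'
        linarith
      by_cases hwin : ((b : ℤ) - x ^ 2) ^ 2 < ((a : ℤ) - 1) * x ^ 2 * y ^ 2
      · obtain ⟨c, hc⟩ := window_II a b x y 1 (by omega) (by norm_num) (by omega)
          (by simpa using hwin)
        exact ⟨c, _, _, hc⟩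
      · push Not at hwin
        have h1 : (x : ℤ) ^ 2 < b := by
          by_contra hcon
          push Not at hcon
          exact absurd (K1_lower_II a b x y ha' hy' hYb hone hcon) (not_lt.mpr hwin)
        have hnext := K1_next_II a b x y i ha' hx' hy' hi' hia1 hia2 hbd hone h1 hwin
        have hai : i ^ 2 ≤ a := by omega
        have key : (i * x + a * y) ^ 2 = a * (x + i * y) ^ 2 + (a - i ^ 2) := by
          zify [hai]
          have : ((i : ℤ) * x + a * y) ^ 2 - a * (x + i * y) ^ 2 = (i ^ 2 - a) * (x ^ 2 - a * y ^ 2) := by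
            ring
          rw [hone] at this
          linarith
        obtain ⟨c, hc⟩ := window_I a b (i * x + a * y) (x + i * y) (a - i ^ 2) (by positivity)
          (by omega) key (by
            push_cast [hai]
            exact_mod_cast hnext)
        exact ⟨c, _, _, hc⟩
    · obtain ⟨c, hc⟩ := window_II a b x y (K + 1) (by omega) (by omega) hKeq
        (ineq_II a b x y (Q + 1) ((K + 1 : ℕ) : ℤ) ha' hb' hx' hy' hyQ' hQ2' hQ3'
          (by push_cast; exact_mod_cast (by omega : 2 ≤ K + 1)) hKZ hD')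
      exact ⟨c, _, _, hc⟩
  · exact absurd (isSquare_of_mul_sq a x y (by omega) heq) hns
  · -- first kind
    obtain ⟨K, hK⟩ := Nat.exists_eq_add_of_lt hgt
    have hKeq : x ^ 2 = a * y ^ 2 + (K + 1) := by omega
    have hKZ : (x : ℤ) ^ 2 = a * y ^ 2 + ((K + 1 : ℕ) : ℤ) := by
      have : ((x ^ 2 : ℕ) : ℤ) = ((a * y ^ 2 + (K + 1) : ℕ) : ℤ) := by rw [hKeq]
      push_cast at this ⊢
      linarith
    have hD' : (((K + 1 : ℕ) : ℤ)) ^ 2 * ((Q : ℤ) + 1) ^ 2 ≤ 2 * (x ^ 2 + a * y ^ 2) := by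
      have e : (((K + 1 : ℕ) : ℤ)) = x ^ 2 - a * y ^ 2 := by linarith
      rw [e]
      exact hD
    rcases Nat.lt_or_ge K 1 with hK0 | hK1
    · have hK0' : K = 0 := by omega
      subst hK0'
      have hone : (x : ℤ) ^ 2 = a * y ^ 2 + 1 := by simpa using hKZ
      have hbd : 3 * (b : ℤ) < 8 * (a * y ^ 2) + 4 := by
        simp only [zero_add, Nat.cast_one, one_pow, one_mul] at hD'
        rw [hone] at hD'
        linarith
      by_cases hwin : ((b : ℤ) - a * y ^ 2) ^ 2 < ((a : ℤ) - 1) * x ^ 2 * y ^ 2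
      · obtain ⟨c, hc⟩ := window_I a b x y 1 (by omega) (by norm_num) (by omega)
          (by simpa using hwin)
        exact ⟨c, _, _, hc⟩
      · push Not at hwin
        have h1 : (a : ℤ) * y ^ 2 < b := by
          by_contra hcon
          push Not at hcon
          exact absurd (K1_lower_I a b x y ha' hy' hYb hone hcon) (not_lt.mpr hwin)
        have hnext := K1_next_I a b x y i ha' hx' hy' hi' hia1 hia2 hbd hone h1 hwin
        have hai : i ^ 2 ≤ a := by omega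
        have key : (i * x + a * y) ^ 2 + (a - i ^ 2) = a * (x + i * y) ^ 2 := by
          zify [hai]
          have : ((i : ℤ) * x + a * y) ^ 2 - a * (x + i * y) ^ 2 = (i ^ 2 - a) * (x ^ 2 - a * y ^ 2) := by
            ring
          rw [hone] at this
          linarith
        obtain ⟨c, hc⟩ := window_II a b (i * x + a * y) (x + i * y) (a - i ^ 2) (by positivity)
          (by omega) key (by
            push_cast [hai]
            exact_mod_cast hnext)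
        exact ⟨c, _, _, hc⟩
    · obtain ⟨c, hc⟩ := window_I a b x y (K + 1) (by omega) (by omega) hKeq
        (ineq_I a b x y (Q + 1) ((K + 1 : ℕ) : ℤ) ha' hb' hx' hy' hyQ' hQ2' hQ3'
          (by push_cast; exact_mod_cast (by omega : 2 ≤ K + 1)) hKZ hD')
      exact ⟨c, _, _, hc⟩

end Pool.Agent.MP_5c5acc_nt
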