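import Mathlib
import Pool.Agent.MP_5c5acc_nt.Core

namespace Pool.Agent.MP_5c5acc_nt

/-- `n = a * b ^ 2` has a partner pair `c * x ^ 2`, `c * a * y ^ 2` inside the window -/
def Cov (a b : ℕ) : Prop :=
  ∃ c x y : ℕ, a * b ^ 2 < c * x ^ 2 ∧ c * x ^ 2 < a * (b + 1) ^ 2 ∧
      b ^ 2 < c * y ^ 2 ∧ c * y ^ 2 < (b + 1) ^ 2

theorem cov_I (a b x y K : ℕ) (hy : 0 < y) (hK : 0 < K) (h : x ^ 2 = a * y ^ 2 + K)
    (hc : ((K : ℤ) * b - a * y ^ 2) ^ 2 < ((a : ℤ) - K) * x ^ 2 * y ^ 2) : Cov a b := by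
  obtain ⟨c, hc⟩ := window_I a b x y K hy hK h hc
  exact ⟨c, x, y, hc⟩

theorem cov_II (a b x y K : ℕ) (hx : 0 < x) (hK : 0 < K) (h : x ^ 2 + K = a * y ^ 2)
    (hc : ((K : ℤ) * b - x ^ 2) ^ 2 < ((a : ℤ) - K) * x ^ 2 * y ^ 2) : Cov a b := by
  obtain ⟨c, hc⟩ := window_II a b x y K hx hK h hc
  exact ⟨c, x, y, hc⟩

/-! ### a = 3 -/

theorem chain_three (n : ℕ) : ∃ x y : ℕ, n < x ∧ 0 < y ∧ x ^ 2 = 3 * y ^ 2 + 1 ∧
    ∀ b : ℕ, 1 ≤ b → b ≤ (x + 3 * y) * y → Cov 3 b := by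
  induction n with
  | zero =>
    refine ⟨2, 1, by norm_num, by norm_num, by norm_num, ?_⟩
    intro b hb1 hb2
    apply cov_I 3 b 2 1 1 (by norm_num) (by norm_num) (by norm_num)
    have hb2' : b ≤ 5 := by omega
    interval_cases b <;> norm_num
  | succ n ih =>
    obtain ⟨x, y, hx, hy, h, hcov⟩ := ih
    refine ⟨2 * x + 3 * y, x + 2 * y, by omega, by omega, by nlinarith, ?_⟩
    intro b hb1 hb2
    have hZ : (x : ℤ) ^ 2 = 3 * y ^ 2 + 1 := by exact_mod_cast h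
    have hx0 : (0 : ℤ) < x := by exact_mod_cast (by omega : 0 < x)
    have hy0 : (0 : ℤ) < y := by exact_mod_cast hy
    rcases Nat.lt_or_ge ((x + 3 * y) * y) b with h1 | h1
    · rcases Nat.lt_or_ge b ((x + 3 * y) * (x + 2 * y)) with h2 | h2
      · -- K = 2
        apply cov_II 3 b (x + 3 * y) (x + y) 2 (by omega) (by norm_num) (by nlinarith)
        have h1' : ((x : ℤ) + 3 * y) * y < b := by exact_mod_cast h1
        have h2' : (b : ℤ) < ((x : ℤ) + 3 * y) * (x + 2 * y) := by exact_mod_cast h2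
        push_cast
        have e : (2 * (b : ℤ) - (x + 3 * y) ^ 2) ^ 2 < (((x : ℤ) + 3 * y) * (x + y)) ^ 2 := by
          apply sq_lt_sq' <;> nlinarith
        calc _ < (((x : ℤ) + 3 * y) * (x + y)) ^ 2 := e
          _ = _ := by ring
      · apply cov_I 3 b (2 * x + 3 * y) (x + 2 * y) 1 (by omega) (by norm_num) (by nlinarith)
        have h2' : ((x : ℤ) + 3 * y) * (x + 2 * y) ≤ b := by exact_mod_cast h2
        have hb2' : (b : ℤ) ≤ (2 * x + 3 * y + 3 * (x + 2 * y)) * (x + 2 * y) := by exact_mod_cast hb2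
        push_cast
        have e : (1 * (b : ℤ) - 3 * (x + 2 * y) ^ 2) ^ 2 ≤ ((2 * (x : ℤ) + 3 * y) * (x + 2 * y)) ^ 2 := by
          apply sq_le_sq' <;> nlinarith
        have e2 : 0 < ((2 * (x : ℤ) + 3 * y) * (x + 2 * y)) ^ 2 := by positivity
        nlinarith
    · exact hcov b hb1 h1

theorem cov_three (b : ℕ) (hb : 1 ≤ b) : Cov 3 b := by
  obtain ⟨x, y, hx, hy, _, hcov⟩ := chain_three b
  apply hcov b hb
  nlinarith

/-! ### a = 5 -/

theorem chain_five (n : ℕ) : ∃ x y : ℕ, n < x ∧ 0 < y ∧ x ^ 2 + 1 = 5 * y ^ 2 ∧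
    ∀ b : ℕ, 1 ≤ b → b < x * (x + 2 * y) → Cov 5 b := by
  induction n with
  | zero =>
    refine ⟨2, 1, by norm_num, by norm_num, by norm_num, ?_⟩
    intro b hb1 hb2
    apply cov_II 5 b 2 1 1 (by norm_num) (by norm_num) (by norm_num)
    have hb2' : b < 8 := by omega
    interval_cases b <;> norm_num
  | succ n ih =>
    obtain ⟨x, y, hx, hy, h, hcov⟩ := ih
    refine ⟨9 * x + 20 * y, 4 * x + 9 * y, by omega, by omega, by nlinarith, ?_⟩
    intro b hb1 hb2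
    have hZ : (x : ℤ) ^ 2 + 1 = 5 * y ^ 2 := by exact_mod_cast h
    have hx0 : (0 : ℤ) < x := by exact_mod_cast (by omega : 0 < x)
    have hy0 : (0 : ℤ) < y := by exact_mod_cast hy
    rcases Nat.lt_trichotomy b (x * (x + 2 * y)) with h1 | h1 | h1
    · exact hcov b hb1 h1
    · -- K = 4
      apply cov_I 5 b (x + 5 * y) (x + y) 4 (by omega) (by norm_num) (by nlinarith)
      have h1' : (b : ℤ) = x * (x + 2 * y) := by exact_mod_cast h1
      rw [h1']
      push_cast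
      have e : (4 * ((x : ℤ) * (x + 2 * y)) - 5 * (x + y) ^ 2) ^ 2
          < (((x : ℤ) + 5 * y) * (x + y)) ^ 2 := by
        apply sq_lt_sq' <;> nlinarith
      calc _ < (((x : ℤ) + 5 * y) * (x + y)) ^ 2 := e
        _ = _ := by ring
    · rcases Nat.lt_trichotomy b ((5 * (x + 2 * y) + 2 * (2 * x + 5 * y)) * (x + 2 * y)) with
        h2 | h2 | h2
      · apply cov_I 5 b (2 * x + 5 * y) (x + 2 * y) 1 (by omega) (by norm_num) (by nlinarith)
        have h1' : (x : ℤ) * (x + 2 * y) < b := by exact_mod_cast h1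
        have h2' : (b : ℤ) < (5 * (x + 2 * y) + 2 * (2 * x + 5 * y)) * (x + 2 * y) := by
          exact_mod_cast h2
        push_cast
        have e : (1 * (b : ℤ) - 5 * (x + 2 * y) ^ 2) ^ 2
            < (2 * (2 * (x : ℤ) + 5 * y) * (x + 2 * y)) ^ 2 := by
          apply sq_lt_sq' <;> nlinarith
        calc _ < (2 * (2 * (x : ℤ) + 5 * y) * (x + 2 * y)) ^ 2 := e
          _ = _ := by ring
      · -- K = 4, second kind
        apply cov_II 5 b ((2 * x + 5 * y) + 5 * (x + 2 * y)) ((2 * x + 5 * y) + (x + 2 * y)) 4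
          (by omega) (by norm_num) (by nlinarith)
        have h1' : (b : ℤ) = (5 * (x + 2 * y) + 2 * (2 * x + 5 * y)) * (x + 2 * y) := by
          exact_mod_cast h2
        rw [h1']
        push_cast
        have e : (4 * ((5 * ((x : ℤ) + 2 * y) + 2 * (2 * x + 5 * y)) * (x + 2 * y))
            - ((2 * x + 5 * y) + 5 * (x + 2 * y)) ^ 2) ^ 2
            < (((2 * (x : ℤ) + 5 * y) + 5 * (x + 2 * y)) * ((2 * x + 5 * y) + (x + 2 * y))) ^ 2 := by
          apply sq_lt_sq' <;> nlinarith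
        calc _ < (((2 * (x : ℤ) + 5 * y) + 5 * (x + 2 * y)) * ((2 * x + 5 * y) + (x + 2 * y))) ^ 2 := e
          _ = _ := by ring
      · apply cov_II 5 b (9 * x + 20 * y) (4 * x + 9 * y) 1 (by omega) (by norm_num) (by nlinarith)
        have h1' : (5 * ((x : ℤ) + 2 * y) + 2 * (2 * x + 5 * y)) * (x + 2 * y) < b := by
          exact_mod_cast h2
        have h2' : (b : ℤ) < (9 * x + 20 * y) * (9 * x + 20 * y + 2 * (4 * x + 9 * y)) := by
          exact_mod_cast hb2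
        push_cast
        have e : (1 * (b : ℤ) - (9 * x + 20 * y) ^ 2) ^ 2
            < (2 * (9 * (x : ℤ) + 20 * y) * (4 * x + 9 * y)) ^ 2 := by
          apply sq_lt_sq' <;> nlinarith
        calc _ < (2 * (9 * (x : ℤ) + 20 * y) * (4 * x + 9 * y)) ^ 2 := e
          _ = _ := by ring

theorem cov_five (b : ℕ) (hb : 1 ≤ b) : Cov 5 b := by
  obtain ⟨x, y, hx, hy, _, hcov⟩ := chain_five b
  apply hcov b hb
  nlinarith

/-! ### a = 2 -/

theorem chain_two (n : ℕ) : ∃ x y : ℕ, n < x ∧ 0 < y ∧ x ^ 2 + 1 = 2 * y ^ 2 ∧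
    ∀ b : ℕ, 1 ≤ b → b < x * (x + y) → ¬ IsSquare (8 * b ^ 2 + 8 * b + 1) → Cov 2 b := by
  induction n with
  | zero =>
    refine ⟨1, 1, by norm_num, by norm_num, by norm_num, ?_⟩
    intro b hb1 hb2 _
    apply cov_II 2 b 1 1 1 (by norm_num) (by norm_num) (by norm_num)
    have hb2' : b < 2 := by omega
    interval_cases b; norm_num
  | succ n ih =>
    obtain ⟨x, y, hx, hy, h, hcov⟩ := ih
    refine ⟨3 * x + 4 * y, 2 * x + 3 * y, by omega, by omega, by nlinarith, ?_⟩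
    intro b hb1 hb2 hns
    have hZ : (x : ℤ) ^ 2 + 1 = 2 * y ^ 2 := by exact_mod_cast h
    have hx0 : (0 : ℤ) < x := by exact_mod_cast (by omega : 0 < x)
    have hy0 : (0 : ℤ) < y := by exact_mod_cast hy
    rcases Nat.lt_trichotomy b (x * (x + y)) with h1 | h1 | h1
    · exact hcov b hb1 h1 hns
    · exfalso
      apply hns
      refine ⟨x ^ 2 + 4 * x * y + 2 * y ^ 2, ?_⟩
      rw [h1]
      have e1 : (8 * ((x : ℤ) * (x + y)) ^ 2 + 8 * (x * (x + y)) + 1)
          = (x ^ 2 + 4 * x * y + 2 * y ^ 2) * (x ^ 2 + 4 * x * y + 2 * y ^ 2) := by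
        linear_combination (-2 * (y : ℤ) ^ 2 + 7 * x ^ 2 + 8 * x * y + 1 - 0) * hZ * 0 +
          (7 * (x : ℤ) ^ 2 + 8 * x * y + 2 * y ^ 2 + 1 - 0) * hZ * 1
      exact_mod_cast e1
    · rcases Nat.lt_trichotomy b ((x + y) * (3 * x + 4 * y)) with h2 | h2 | h2
      · apply cov_I 2 b (x + 2 * y) (x + y) 1 (by omega) (by norm_num) (by nlinarith)
        have h1' : (x : ℤ) * (x + y) < b := by exact_mod_cast h1
        have h2' : (b : ℤ) < (x + y) * (3 * x + 4 * y) := by exact_mod_cast h2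
        push_cast
        have e : (1 * (b : ℤ) - 2 * (x + y) ^ 2) ^ 2 < (((x : ℤ) + 2 * y) * (x + y)) ^ 2 := by
          apply sq_lt_sq' <;> nlinarith
        calc _ < (((x : ℤ) + 2 * y) * (x + y)) ^ 2 := e
          _ = _ := by ring
      · exfalso
        apply hns
        refine ⟨(x + 2 * y) ^ 2 + 4 * (x + 2 * y) * (x + y) + 2 * (x + y) ^ 2, ?_⟩
        rw [h2]
        have e1 : (8 * (((x : ℤ) + y) * (3 * x + 4 * y)) ^ 2 + 8 * ((x + y) * (3 * x + 4 * y)) + 1)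
            = ((x + 2 * y) ^ 2 + 4 * (x + 2 * y) * (x + y) + 2 * (x + y) ^ 2)
              * ((x + 2 * y) ^ 2 + 4 * (x + 2 * y) * (x + y) + 2 * (x + y) ^ 2) := by
          have : ((x : ℤ) ^ 2 + 1) = 2 * y ^ 2 := hZ
          nlinarith
        exact_mod_cast e1
      · apply cov_II 2 b (3 * x + 4 * y) (2 * x + 3 * y) 1 (by omega) (by norm_num) (by nlinarith)
        have h1' : ((x : ℤ) + y) * (3 * x + 4 * y) < b := by exact_mod_cast h2
        have h2' : (b : ℤ) < (3 * x + 4 * y) * (3 * x + 4 * y + (2 * x + 3 * y)) := by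
          exact_mod_cast hb2
        push_cast
        have e : (1 * (b : ℤ) - (3 * x + 4 * y) ^ 2) ^ 2
            < ((3 * (x : ℤ) + 4 * y) * (2 * x + 3 * y)) ^ 2 := by
          apply sq_lt_sq' <;> nlinarith
        calc _ < ((3 * (x : ℤ) + 4 * y) * (2 * x + 3 * y)) ^ 2 := e
          _ = _ := by ring

theorem cov_two (b : ℕ) (hb : 1 ≤ b) (hns : ¬ IsSquare (8 * b ^ 2 + 8 * b + 1)) : Cov 2 b := by
  obtain ⟨x, y, hx, hy, _, hcov⟩ := chain_two b
  apply hcov b hb _ hns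
  nlinarith

end Pool.Agent.MP_5c5acc_nt
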