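import Mathlib
import Pool.Agent.MP_5c5acc_nt.GeSix
import Pool.Agent.MP_5c5acc_nt.Small

namespace Pool.Agent.MP_5c5acc_nt

theorem not_isSquare_of_squarefree (a : ℕ) (ha : 2 ≤ a) (hsq : Squarefree a) : ¬ IsSquare a := by
  rintro ⟨z, hz⟩
  have h1 : z * z ∣ a := ⟨1, by rw [hz]; ring⟩
  have h2 := hsq z h1
  rw [Nat.isUnit_iff] at h2
  subst h2
  omega

theorem cov_all (a b : ℕ) (ha : 2 ≤ a) (hns : ¬ IsSquare a) (hb : 1 ≤ b)
    (h2 : a = 2 → Cov 2 b) : Cov a b := by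
  rcases (by omega : a = 2 ∨ a = 3 ∨ a = 4 ∨ a = 5 ∨ 6 ≤ a) with h | h | h | h | h
  · subst h; exact h2 rfl
  · subst h; exact cov_three b hb
  · subst h; exact absurd ⟨2, rfl⟩ hns
  · subst h; exact cov_five b hb
  · exact main_ge_six a b h hns hb

/-- If `n = a * b ^ 2` with `a ≥ 2` squarefree and `Cov a b`, then `n` is good. -/
theorem good_of_cov (n t a b : ℕ) (hn : n = a * b ^ 2) (ha : 2 ≤ a) (hsq : Squarefree a)
    (hb : 1 ≤ b) (hnt : n < t) (ht : IsSquare (n * t)) (hc : Cov a b) :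
    ∃ r s : ℕ, n < r ∧ r < s ∧ s < t ∧ IsSquare (n * r * s) := by
  have hns := not_isSquare_of_squarefree a ha hsq
  -- the size of `t`
  have htlow : a * (b + 1) ^ 2 ≤ t := by
    obtain ⟨z, hz⟩ := ht
    have h1 : b ^ 2 ∣ z ^ 2 := ⟨a * t, by rw [pow_two z, ← hz, hn]; ring⟩
    have h2 : b ∣ z := (Nat.pow_dvd_pow_iff (by norm_num)).mp h1
    obtain ⟨z', rfl⟩ := h2
    have h3 : a * t = z' ^ 2 := by
      have : b ^ 2 * (a * t) = b ^ 2 * z' ^ 2 := by
        calc b ^ 2 * (a * t) = n * t := by rw [hn]; ring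
          _ = b * z' * (b * z') := hz
          _ = b ^ 2 * z' ^ 2 := by ring
      exact Nat.eq_of_mul_eq_mul_left (by positivity) this
    have h4 : a ∣ z' := (hsq.dvd_pow_iff_dvd (by norm_num : (2 : ℕ) ≠ 0)).mp ⟨t, h3.symm⟩
    obtain ⟨w, rfl⟩ := h4
    have h5 : t = a * w ^ 2 := by
      have : a * t = a * (a * w ^ 2) := by rw [h3]; ring
      exact Nat.eq_of_mul_eq_mul_left (by omega) this
    have h6 : b < w := by
      by_contra hcon
      push Not at hcon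
      have : a * w ^ 2 ≤ a * b ^ 2 := Nat.mul_le_mul_left _ (Nat.pow_le_pow_left hcon 2)
      omega
    rw [h5]
    exact Nat.mul_le_mul_left _ (Nat.pow_le_pow_left h6 2)
  obtain ⟨c, x, y, h1, h2, h3, h4⟩ := hc
  have hcpos : 0 < c := by
    rcases Nat.eq_zero_or_pos c with h | h
    · subst h; simp at h1
    · exact h
  have hypos : 0 < y := by
    rcases Nat.eq_zero_or_pos y with h | h
    · subst h; simp at h3
    · exact h
  have h5 : a * b ^ 2 < a * (c * y ^ 2) := Nat.mul_lt_mul_of_pos_left h3 (by omega)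
  have h6 : a * (c * y ^ 2) < a * (b + 1) ^ 2 := Nat.mul_lt_mul_of_pos_left h4 (by omega)
  have hne : c * x ^ 2 ≠ a * (c * y ^ 2) := by
    intro h
    apply hns
    apply isSquare_of_mul_sq a x y hypos
    have : c * x ^ 2 = c * (a * y ^ 2) := by rw [h]; ring
    exact Nat.eq_of_mul_eq_mul_left hcpos this
  rcases Nat.lt_or_gt_of_ne hne with h | h
  · refine ⟨c * x ^ 2, a * (c * y ^ 2), by omega, h, by omega, ⟨a * b * c * x * y, ?_⟩⟩
    rw [hn]; ring
  · refine ⟨a * (c * y ^ 2), c * x ^ 2, by omega, h, by omega, ⟨a * b * c * x * y, ?_⟩⟩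
    rw [hn]; ring

end Pool.Agent.MP_5c5acc_nt
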